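import Mathlib
import Pool.Agent.Helper773.SpecVar.Defs
import Pool.Agent.Helper773.SpecVar.Spectral
import Pool.Agent.Helper773.SpecVar.C5
import Pool.Agent.Helper773.SpecVar.C7
import Pool.Agent.Helper773.SpecVar.C9
import Pool.Agent.Helper773.SpecVar.C11
import Pool.Agent.Helper773.SpecVar.C13
import Pool.Agent.Helper773.SpecVar.C15
set_option autoImplicit false

namespace Pool.Agent.Results.MP_29a676_an.Bounds

open Matrix Pool.Agent.Helper773.SpecVar
open scoped Matrix.Norms.L2Operator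

/-- Bounds for the optimal constants `c_n` of spectral variation of normal `n × n` matrices:
`c_5 ≥ 1.026697`, `c_7 ≥ 1.030742`, `c_9 ≥ 1.032903`, `c_11 ≥ 1.034164`, `c_13 ≥ 1.034957`,
`c_15 ≥ 1.035484`, and `c_n ≤ √⌊(n+1)/2⌋` for every `n ≥ 1`. -/
theorem result :
    (∀ n : ℕ, 5 ≤ n → HasPair n 1.026697) ∧ (∀ n : ℕ, 7 ≤ n → HasPair n 1.030742) ∧
    (∀ n : ℕ, 9 ≤ n → HasPair n 1.032903) ∧ (∀ n : ℕ, 11 ≤ n → HasPair n 1.034164) ∧
    (∀ n : ℕ, 13 ≤ n → HasPair n 1.034957) ∧ (∀ n : ℕ, 15 ≤ n → HasPair n 1.035484) ∧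
    (∀ (n : ℕ) (A B : Matrix (Fin n) (Fin n) ℂ), A * Aᴴ = Aᴴ * A → B * Bᴴ = Bᴴ * B →
      ∀ α β : Fin n → ℂ, IsEigList A α → IsEigList B β →
        spDist α β ≤ Real.sqrt (((n + 1) / 2 : ℕ) : ℝ) * ‖A - B‖) := by
  refine ⟨?_, ?_, ?_, ?_, ?_, ?_, ?_⟩
  · intro n hn
    obtain ⟨k, rfl⟩ := Nat.exists_eq_add_of_le hn
    have h := C5.pair k
    norm_num at h ⊢
    exact h
  · intro n hn
    obtain ⟨k, rfl⟩ := Nat.exists_eq_add_of_le hn
    have h := C7.pair k
    norm_num at h ⊢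
    exact h
  · intro n hn
    obtain ⟨k, rfl⟩ := Nat.exists_eq_add_of_le hn
    have h := C9.pair k
    norm_num at h ⊢
    exact h
  · intro n hn
    obtain ⟨k, rfl⟩ := Nat.exists_eq_add_of_le hn
    have h := C11.pair k
    norm_num at h ⊢
    exact h
  · intro n hn
    obtain ⟨k, rfl⟩ := Nat.exists_eq_add_of_le hn
    have h := C13.pair k
    norm_num at h ⊢
    exact h
  · intro n hn
    obtain ⟨k, rfl⟩ := Nat.exists_eq_add_of_le hn
    have h := C15.pair k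
    norm_num at h ⊢
    exact h
  · intro n A B hA hB α β hα hβ
    exact upper_normal A B hA hB α β hα hβ

end Pool.Agent.Results.MP_29a676_an.Bounds
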